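import Pool.Agent.X111.BF.Fin

/-!
# Sharp constants for even-order antiderivatives of the zeta argument

Under the Riemann hypothesis, for every even `n ≥ 2`,
`-(A_n^- + o(1)) Λ_n(t) ≤ S_n(t) ≤ (A_n^+ + o(1)) Λ_n(t)`.
-/

set_option autoImplicit false

namespace Pool.Agent.Results.MP_155064_nt.EvenBounds

open Filter Set Pool.Agent.X111.BF

/-- Under RH, for every even `n ≥ 2` and every `ε > 0`, for all large `t`,
`-(A_n^- + ε) Λ_n(t) ≤ S_n(t) ≤ (A_n^+ + ε) Λ_n(t)`. -/
theorem result (hRH : RiemannHypothesis) (n : ℕ) (hn : Even n) (h2 : 2 ≤ n) (ε : ℝ) (hε : 0 < ε) :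
    ∀ᶠ t : ℝ in atTop, -((Aminus n + ε) * LamN n t) ≤ Sn n t ∧ Sn n t ≤ (Aplus n + ε) * LamN n t := by
  obtain ⟨α, hP, hmin⟩ := exists_par hn h2
  have hP' : Par n (1 - α) := ⟨hn, h2, hP.mem', hP.crit'⟩
  have hodd : bernoulliFun (n + 1) (1 - α) = -bernoulliFun (n + 1) α := by
    rw [bernoulliFun_eval_one_sub, hn.add_one.neg_one_pow]
    ring
  have hmax : ∀ x ∈ Icc (0:ℝ) 1, bernoulliFun (n + 1) x ≤ bernoulliFun (n + 1) (1 - α) := by
    intro x hx
    have h1 := hmin (1 - x) ⟨by linarith [hx.2], by linarith [hx.1]⟩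
    rw [bernoulliFun_eval_one_sub, hn.add_one.neg_one_pow] at h1
    rw [hodd]
    linarith
  have hmB : minB (n + 1) = bernoulliFun (n + 1) α := by
    unfold minB
    apply IsLeast.csInf_eq
    refine ⟨⟨α, ⟨hP.mem.1.le, hP.mem.2.le⟩, rfl⟩, ?_⟩
    rintro _ ⟨x, hx, rfl⟩
    exact hmin x hx
  have hMB : maxB (n + 1) = bernoulliFun (n + 1) (1 - α) := by
    unfold maxB
    apply IsGreatest.csSup_eq
    refine ⟨⟨1 - α, ⟨hP.mem'.1.le, hP.mem'.2.le⟩, rfl⟩, ?_⟩
    rintro _ ⟨x, hx, rfl⟩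
    exact hmax x hx
  have up := asymp hRH hP (s := 1) (by simp) (fun x => by
    rw [one_mul]
    exact Dc_sign_min hP hmin x) hε
  have lo := asymp hRH hP' (s := -1) (by simp) (fun x => by
    have := Dc_sign_max hP' hmax x
    linarith) hε
  filter_upwards [up, lo] with t hu hl
  constructor
  · have e : Aminus n = Real.pi ^ n * (-1 * (-(bernoulliFun (n + 1) (1 - α)))) /
        (2 * (n + 1).factorial) := by
      unfold Aminus
      rw [hMB]
      ring
    rw [e]
    linarith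
  · have e : Aplus n = Real.pi ^ n * (1 * (-(bernoulliFun (n + 1) α))) / (2 * (n + 1).factorial) := by
      unfold Aplus
      rw [hmB]
      ring
    rw [e]
    linarith

end Pool.Agent.Results.MP_155064_nt.EvenBounds
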